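import Pool.Agent.H79.LZ.H496R3_ZS_Defs
import Pool.Agent.H79.LZ.H496R3_ZS_Norm
import Pool.Agent.H79.LZ.H496R3_ZS_Stmt
import Pool.Agent.H79.LZ.H496R3_ZS_Weak
import Pool.Agent.H79.LZ.H919R4_AS_Circle
import Pool.Agent.H79.LZ.H919R4_AS_Defs
import Pool.Agent.H79.LZ.H919R4_AS_Deriv
import Pool.Agent.H79.LZ.H919R4_AS_Ext
import Pool.Agent.H79.LZ.H919R4_AS_Final
import Pool.Agent.H79.LZ.H919R4_AS_Hat
import Pool.Agent.H79.LZ.H919R4_AS_Rep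
import Pool.Agent.H79.LZ.H919R4_ZS_Act
import Pool.Agent.H79.LZ.H919R4_ZS_Circle
import Pool.Agent.H79.LZ.H919R4_ZS_Contr
import Pool.Agent.H79.LZ.H919R4_ZS_Defs
import Pool.Agent.H79.LZ.H919R4_ZS_Deriv
import Pool.Agent.H79.LZ.H919R4_ZS_Final
import Pool.Agent.H79.LZ.H919R4_ZS_Hat
import Pool.Agent.H79.LZ.N453_ZS_Amen
import Pool.Agent.H79.LZ.N453_ZS_Def
import Pool.Agent.H79.LZ.N453_ZS_Main
import Pool.Agent.H79.LZ.N453_ZS_PD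
import Pool.Agent.H79.LZ.N453_ZS_Perm
import Pool.Agent.H79.LZ.N453_ZS_Pow
import Pool.Agent.H79.LZ.N453_ZS_Quo
import Pool.Agent.H79.LZ.N453_ZS_Tor
import Pool.Agent.H79.LZ.N453_ZS_Trans
import Pool.Agent.H79.LZ.Q134_ZS_Approx
import Pool.Agent.H79.LZ.Q134_ZS_Conj
import Pool.Agent.H79.LZ.Q134_ZS_Defs
import Pool.Agent.H79.LZ.Q134_ZS_Fun
import Pool.Agent.H79.LZ.Q134_ZS_Main
import Pool.Agent.H79.LZ.Q134_ZS_Op
import Pool.Agent.H79.LZ.Q134_ZS_Semi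
import Pool.Agent.H79.LZ.Q134_ZS_SubAlg
import Pool.Agent.H79.LZ.Q134_ZS_SubCh
import Pool.Agent.H79.LZ.Q134_ZS_SubDefs
import Pool.Agent.H79.LZ.Q134_ZS_SubMain
import Pool.Agent.H79.LZ.Q134_ZS_SubMat
import Pool.Agent.H79.LZ.Q134_ZS_SubNorm
import Pool.Agent.H79.LZ.R778_Cliff
import Pool.Agent.H79.LZ.R778_Core
import Pool.Agent.H79.LZ.R778_Gap
import Pool.Agent.H79.LZ.R778_Gap2
import Pool.Agent.H79.LZ.R778_Gap3
import Pool.Agent.H79.LZ.R778_Master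
import Pool.Agent.H79.LZ.R778_Par
import Pool.Agent.H79.LZ.R778_Par2
import Pool.Agent.H79.LZ.R778_Refl
import Pool.Agent.H79.LZ.R778_Refl2
import Pool.Agent.H79.LZ.R778_ZSDefs
import Pool.Agent.H79.LZ.R778_ZSFinal
import Pool.Agent.H79.LZ.R807_ZK1
import Pool.Agent.H79.LZ.R807_ZK2
import Pool.Agent.H79.LZ.TH254_ZT_Defs
import Pool.Agent.H79.LZ.TH254_ZT_Main
import Pool.Agent.H79.LZ.TH38_ZT_Down
import Pool.Agent.H79.LZ.TH38_ZT_Final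
import Pool.Agent.H79.LZ.TH38_ZT_Fol
import Pool.Agent.H79.LZ.TH38_ZT_Gen
import Pool.Agent.H79.LZ.TH38_ZT_Red
import Pool.Agent.H79.LZ.TH38_ZT_Ring
import Pool.Agent.H79.LZ.TH38_ZT_Trace
import Pool.Agent.H79.LZ.TH38_ZT_Wall
import Pool.Agent.H79.LZ.W5h52_ZP_Asm
import Pool.Agent.H79.LZ.W5h52_ZP_Cplx
import Pool.Agent.H79.LZ.W5h52_ZP_Desc
import Pool.Agent.H79.LZ.W5h52_ZP_Dist
import Pool.Agent.H79.LZ.W5h52_ZP_Dual
import Pool.Agent.H79.LZ.W5h52_ZP_ExtV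
import Pool.Agent.H79.LZ.W5h52_ZP_Fell
import Pool.Agent.H79.LZ.W5h52_ZP_Fin
import Pool.Agent.H79.LZ.W5h52_ZP_Inv
import Pool.Agent.H79.LZ.W5h52_ZP_Main
import Pool.Agent.H79.LZ.W5h52_ZP_Nil
import Pool.Agent.H79.LZ.W5h52_ZP_PD
import Pool.Agent.H79.LZ.W5h52_ZP_Sharp
import Pool.Agent.H79.LZ.W5h52_ZP_Top
import Pool.Agent.H79.LZ.W5h52_ZP_Tw
import Pool.Agent.H79.LZ.W5h52_ZP_Virt
import Pool.Agent.H79.LZ.W5h87_ZInt_Circle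
import Pool.Agent.H79.LZ.W5h87_ZInt_Defs
import Pool.Agent.H79.LZ.W5h87_ZInt_Deriv
import Pool.Agent.H79.LZ.W5h87_ZInt_Main
import Pool.Agent.H79.LZ.W5h87_ZInt_Norm
import Pool.Agent.H79.LZ.X270_NT_Bridge
import Pool.Agent.H79.LZ.X270_NT_Contr
import Pool.Agent.H79.LZ.X270_NT_Core
import Pool.Agent.H79.LZ.X270_NT_Defs
import Pool.Agent.H79.LZ.X270_NT_EllQ
import Pool.Agent.H79.LZ.X270_NT_Final
import Pool.Agent.H79.LZ.X270_NT_FinalW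
import Pool.Agent.H79.LZ.X270_NT_Main
import Pool.Agent.H79.LZ.X270_NT_RT
import Pool.Agent.H79.LZ.X270_NT_Sep
import Pool.Agent.H79.LZ.X270_NT_Stmt
import Pool.Agent.H79.LZ.X270_NT_StmtW
import Pool.Agent.H79.LZ.X270_NT_ThinBound
import Pool.Agent.H79.LZ.X270_NT_Unit
import Pool.Agent.H79.LZ.X270_NT_Weights
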