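import Pool.Agent.H79.LZ.H919R4_AS_Defs
import Pool.Agent.H79.LZ.N453_ZS_Def
import Pool.Agent.H79.LZ.X270_NT_StmtW
import Pool.Agent.H79.LZ.Q134_ZS_SubDefs
import Pool.Agent.H79.LZ.Q134_ZS_Defs

set_option autoImplicit false

/-!
# Groups with zero in the spectrum: inheritance

`FinRes G` is a finite free resolution of the trivial module over the integral group ring, for
example the cellular chain complex of the universal cover of a finite aspherical complex with
fundamental group `G`; its homology with respect to `toRed G` is the homology with coefficients in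
the reduced group C*-algebra (`Pool.Agent.H919R4.ZS`).
-/

namespace Pool.Agent.H79.ZC

open Pool.Agent.H919R4.ZS (FinRes toRed Hil toOp)
open Pool.Agent.H919R4.AS (cohomologyZ)
open Pool.Agent.H496R3.ZS (IsAmenable)
open Pool.Agent.N453.ZS (PolyZ)
open Pool.Agent.X270.NT.W (SeenByWeight Separated)
open Pool.Agent.Q134.ZS (SubMap SuppIn IsCycle IsCocycle GrowthLE)
open MonoidAlgebra (single)

section

variable {G : Type} [Group G] (X : FinRes G) {S : Type} [Ring S] (φ : MonoidAlgebra ℤ G →+* S)
  (q : ℕ)

/-- The homology `H_q(S ⊗_{ℤ[G]} X)` (cycles modulo boundaries), an `S`-module. -/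
def Homology : Type := X.homology φ q

/-- The addition of the homology. -/
noncomputable instance instAddCommGroupHomology : AddCommGroup (Homology X φ q) :=
  Submodule.Quotient.addCommGroup _

/-- The homology as a module. -/
noncomputable instance instModuleHomology : Module S (Homology X φ q) :=
  Submodule.Quotient.module _

end

/-- The ring homomorphism `ℤ[G] → ℚ[G/N]`. So `Homology X (toRat N) q` is the `ℚ[G/N]`-module
`H_q(N; ℚ)`. -/
noncomputable def toRat {G : Type} [Group G] (N : Subgroup G) [N.Normal] :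
    MonoidAlgebra ℤ G →+* MonoidAlgebra ℚ (G ⧸ N) :=
  (MonoidAlgebra.mapRingHom (G ⧸ N) (Int.castRingHom ℚ)).comp
    (MonoidAlgebra.mapDomainRingHom ℤ (QuotientGroup.mk' N))

section

variable (Q : Type) [Group Q] (W : Type) [AddCommGroup W] [Module (MonoidAlgebra ℚ Q) W]

/-- The `ℚ[Q]`-module `W` is finite dimensional over `ℚ`: it is spanned by finitely many elements.
(`single 1 c` is the rational number `c` as an element of `ℚ[Q]`.) -/
def FinDim : Prop :=
  ∃ (r : ℕ) (v : Fin r → W), ∀ x : W, ∃ c : Fin r → ℚ,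
    x = ∑ i, (single 1 (c i) : MonoidAlgebra ℚ Q) • v i

/-- For submodules `F ≤ F'` of a finite dimensional module `W`: the action of `Q` on `F' / F` is
bounded. That is, for every linear form `f` on `W` which vanishes on `F` (an additive map between
rational vector spaces is linear) and every `w ∈ F'` the numbers `f (g w)`, `g ∈ Q`, are bounded. -/
def BoundedStep (F F' : Submodule (MonoidAlgebra ℚ Q) W) : Prop :=
  ∀ f : W →+ ℚ, (∀ x ∈ F, f x = 0) → ∀ w ∈ F', ∃ C : ℚ, ∀ g : Q,
    |f ((single g 1 : MonoidAlgebra ℚ Q) • w)| ≤ C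

/-- The `ℚ[Q]`-module `W` is distal of finite dimension: it is finite dimensional and has a finite
increasing filtration by submodules such that the action of `Q` on the quotients `F (i + 1) / F i` is
bounded. For example, a subgroup of finite index in `Q` acts nilpotently on it. -/
def Distal : Prop :=
  FinDim Q W ∧ ∃ (r : ℕ) (F : ℕ → Submodule (MonoidAlgebra ℚ Q) W), F 0 = ⊥ ∧ F r = ⊤ ∧
    ∀ i, F i ≤ F (i + 1) ∧ BoundedStep Q W (F i) (F (i + 1))

end

section

variable {G : Type} [Group G] (N : Subgroup G) [N.Normal] (X : FinRes G)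

/-- The rational vector space `H_q(N; ℚ)` is finite dimensional. -/
def FiniteHomology (q : ℕ) : Prop := FinDim (G ⧸ N) (Homology X (toRat N) q)

/-- The `ℚ[G/N]`-module `H_q(N; ℚ)` is distal of finite dimension. -/
def DistalHomology (q : ℕ) : Prop := Distal (G ⧸ N) (Homology X (toRat N) q)

end

section

variable {Q : Type} [Group Q] (Y : FinRes Q)

/-- The Euler characteristic of the resolution. -/
def euler : ℤ := ∑ i ∈ Finset.range (Y.len + 1), (-1) ^ i * (Y.n i : ℤ)

/-- `H_i(Q; C*_r(Q)) ≠ 0`. -/
def NonAcyclic (i : ℕ) : Prop := Nontrivial (Y.homology (toRed Q) i)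

/-- The coboundary `ℓ²(Q)^(n i) → ℓ²(Q)^(n (i+1))` of the cochain complex
`Hom_{ℤ[Q]}(Y_*, ℓ²(Q))`; `toOp` is the action of `ℤ[Q]` on `ℓ²(Q)` by left translations. -/
noncomputable def l2cobd (i : ℕ) (f : Fin (Y.n i) → Hil Q) : Fin (Y.n (i + 1)) → Hil Q :=
  fun k => ∑ j, toOp Q (Y.d i k j) (f j)

/-- `H^i(Q; ℓ²(Q)) ≠ 0` (unreduced `ℓ²`-cohomology): some cocycle is not a coboundary. This holds
if the `i`-th `ℓ²`-Betti number of `Q` is not zero. -/
def L2NonAcyclic : ℕ → Prop
  | 0 => ∃ f, l2cobd Y 0 f = 0 ∧ f ≠ 0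
  | i + 1 => ∃ f, l2cobd Y (i + 1) f = 0 ∧ ∀ g, l2cobd Y i g ≠ f

/-- `Q` is a Poincaré duality group whose dimension is `n`: `H^k(Q; ℤ[Q]) = 0`
for `k < n` and `H^n(Q; ℤ[Q])` is infinite cyclic (the action of `Q` on it can be nontrivial). The
fundamental group of a closed aspherical manifold of dimension `n` is of this kind. -/
def PoincareDuality (n : ℕ) : Prop :=
  (∀ k < n, Subsingleton (Y.cohomology k)) ∧ Nonempty (Y.cohomology n ≃+ ℤ)

/-- The length of the resolution is at most `p`, or `Q` is a Poincaré duality group and its dimension,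
the length of the resolution, is at most `2 p`. -/
def Low (p : ℕ) : Prop := Y.len ≤ p ∨ (Y.len ≤ 2 * p ∧ PoincareDuality Y Y.len)

/-- For every finite set `F ⊆ Q` and every `lam > 1` there are an amenable subgroup `C` of `Q`, a
`k`-cycle `a` with support in a finite set `S` and a `k`-cocycle `b` of the covering with fundamental
group `C`, such that the pairing `∑ a b` is not zero and such that the sum of the squares of the
values of `b` in `F^r • S` is at most `lam^r`, for infinitely many `r`. -/
def TransverseCycles (k : ℕ) : Prop :=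
  ∀ (F : Finset Q) (lam : ℝ), 1 < lam →
    ∃ C : Subgroup Q, IsAmenable C ∧ ∃ (a b : Fin (Y.n k) → (Q ⧸ C) → ℂ) (S : Finset (Q ⧸ C)),
      IsCycle Y k a ∧ SuppIn a S ∧ IsCocycle Y k b ∧
      ∑ j, ∑ z ∈ S, a j z * b j z ≠ 0 ∧ GrowthLE b S F lam

end

/-- The basic conditions for a finite free resolution `X` of `ℤ` over `ℤ[G]` and a number `k`:

* `H^i(G; ℓ²(G)) ≠ 0` for some `i ≤ k`;
* the length of `X` is at most `k` and its Euler characteristic is not zero;
* `k ≥ 2`, and the length of `X` is at most two or `H^q(G; ℤ[G]) ≠ 0` for some `q ≤ 2`;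
* `k ≥ 2`, and `H^q(G; ℤ[G/C]) ≠ 0` for some `q ≤ 2` and an amenable subgroup `C` of infinite index;
* `k ≥ 2`, and `G` is a Poincaré duality group of dimension `n`, where `n ≤ 3` or `G` has a
  poly-(infinite cyclic) subgroup of Hirsch length at least `n - 2`;
* zero is seen in degrees at most `k` by arbitrarily slowly varying weights;
* `k ≥ 1`, and the group is separated by subsets with slowly varying weights;
* there are transverse cycles in a degree `i ≤ k`. -/
def Base {G : Type} [Group G] (X : FinRes G) (k : ℕ) : Prop :=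
  (∃ i ≤ k, L2NonAcyclic X i) ∨
  (X.len ≤ k ∧ euler X ≠ 0) ∨
  (2 ≤ k ∧ (X.len ≤ 2 ∨ ∃ q ≤ 2, Nontrivial (X.cohomology q))) ∨
  (2 ≤ k ∧ ∃ C : Subgroup G, IsAmenable C ∧ Infinite (G ⧸ C) ∧
    ∃ q ≤ 2, Nontrivial (cohomologyZ X (G ⧸ C) q)) ∨
  (2 ≤ k ∧ ∃ n, PoincareDuality X n ∧ (n ≤ 3 ∨ ∃ (P : Subgroup G) (h : ℕ), PolyZ P h ∧ n ≤ h + 2)) ∨
  (∀ (S : Set G) (ε : ℝ), S.Finite → 0 < ε → SeenByWeight X k S ε) ∨
  (1 ≤ k ∧ ∀ (S : Set G) (ε : ℝ), S.Finite → 0 < ε → Separated G S ε) ∨
  ∃ i ≤ k, TransverseCycles X i

/-- `Seen G k`: the least class of pairs of a group `G` and a number `k` which contains the pairs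
with a finite free resolution which satisfies one of the basic conditions and is closed under the
following rules.

* `mono`: `k` can be increased.
* `dual`: every `k` can be replaced by `p` if the resolution has length at most `p`, or if `G` is a
  Poincaré duality group and its dimension, the length of the resolution, is at most `2 p` (`Low`).
* `circle`: from `G/⟨z⟩` to `G`, if `⟨z⟩` is an infinite cyclic normal subgroup.
* `distal`: from `G/N` to `G`, if `N` is an amenable normal subgroup and the modules `H_q(N; ℚ)`,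
  `1 ≤ q < k`, are distal. (They are distal if the modules `H_q(N; ℤ)` have finite filtrations by
  submodules such that every factor has finite exponent or is infinite cyclic.)
* `topDual`: from `(G/N, k)` to `(G, m + 1)`, if `N` is an amenable normal subgroup such that
  `H_q(N; ℚ)`, `1 ≤ q < m`, is distal and `H_m(N; ℚ)` is finite dimensional, and if the resolution of
  `G/N` has length at most `m + 1` or `G/N` is a Poincaré duality group of dimension at most
  `2 m + 2`; there is no condition on `k`.
* `topL2`: `(G, m + 1)`, with `N` as before, if `H^i(G/N; ℓ²(G/N)) ≠ 0` for some `i ≤ m + 1`.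
* `slow`: from a subgroup `N` to `G`, if there is a slow `ℤ[N]`-linear chain map from the
  resolution for `G` to the one for `N`. -/
inductive Seen : (G : Type) → [Group G] → ℕ → Prop
  | base (G : Type) [Group G] (X : FinRes G) (k : ℕ) : Base X k → Seen G k
  | mono (G : Type) [Group G] (k l : ℕ) : Seen G k → k ≤ l → Seen G l
  | dual (G : Type) [Group G] (X : FinRes G) (k p : ℕ) : Seen G k → Low X p → Seen G p
  | circle (G : Type) [Group G] (z : G) [(Subgroup.zpowers z).Normal] (k : ℕ) :
      ¬ IsOfFinOrder z → Seen (G ⧸ Subgroup.zpowers z) k → Seen G k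
  | distal (G : Type) [Group G] (N : Subgroup G) [N.Normal] (X : FinRes G) (k : ℕ) :
      IsAmenable N → Seen (G ⧸ N) k → (∀ q, 1 ≤ q → q < k → DistalHomology N X q) → Seen G k
  | topDual (G : Type) [Group G] (N : Subgroup G) [N.Normal] (X : FinRes G) (Y : FinRes (G ⧸ N))
      (k m : ℕ) : IsAmenable N → (∀ q, 1 ≤ q → q < m → DistalHomology N X q) →
      FiniteHomology N X m → Seen (G ⧸ N) k → Low Y (m + 1) → Seen G (m + 1)
  | topL2 (G : Type) [Group G] (N : Subgroup G) [N.Normal] (X : FinRes G) (Y : FinRes (G ⧸ N))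
      (m : ℕ) : IsAmenable N → (∀ q, 1 ≤ q → q < m → DistalHomology N X q) →
      FiniteHomology N X m → (∃ i ≤ m + 1, L2NonAcyclic Y i) → Seen G (m + 1)
  | slow (G : Type) [Group G] (N : Subgroup G) (X : FinRes G) (Y : FinRes N) (P : SubMap X N Y)
      (k : ℕ) : P.Slow k → Seen N k → Seen G k

end Pool.Agent.H79.ZC
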