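import Pool.Agent.H79.ZC.Defs
import Pool.Agent.H79.ZC.Base

set_option autoImplicit false
set_option linter.unusedSectionVars false

/-!
# Groups with zero in the spectrum: the theorem
-/

namespace Pool.Agent.H79.ZC

open Pool.Agent.H919R4.ZS
open Pool.Agent.H496R3.ZS (IsAmenable)
open Pool.Agent.TH38.ZT (ExAt exAt_iff ex_indep exists_of_euler one_step tower Tower)
open Pool.Agent.W5h52.ZP (Van2 VanA vanA_of_ex all_of)

variable {G : Type} [Group G]

/-- the homology does not depend on the resolution -/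
theorem indep (X X' : FinRes G) {k : ℕ} (h : ∃ i ≤ k, NonAcyclic X i) :
    ∃ i ≤ k, NonAcyclic X' i := by
  obtain ⟨i, hi, h1⟩ := h
  refine ⟨i, hi, ?_⟩
  by_contra h2
  have h3 := (exAt_iff X' (toRed G) i).2 (not_nontrivial_iff_subsingleton.1 h2)
  exact not_nontrivial_iff_subsingleton.2 ((exAt_iff X _ i).1 (ex_indep X' X _ i h3)) h1

theorem ex_of_not {X : FinRes G} {k : ℕ} (h : ¬ ∃ i ≤ k, NonAcyclic X i) :
    ∀ i ≤ k, ExAt X (toRed G) i := by
  intro i hi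
  rw [exAt_iff]
  apply not_nontrivial_iff_subsingleton.1
  intro h1
  exact h ⟨i, hi, h1⟩

theorem not_ex {X : FinRes G} {i : ℕ} (h : NonAcyclic X i) : ¬ ExAt X (toRed G) i := fun h1 =>
  not_nontrivial_iff_subsingleton.2 ((exAt_iff X _ i).1 h1) h

theorem van2_of_ex {X : FinRes G} {k : ℕ} (h : ∀ i ≤ k, ExAt X (toRed G) i) :
    ∀ i ≤ k, Van2 X i := by
  intro i hi
  have h1 := vanA_of_ex X (RingHom.id (MonoidAlgebra ℤ G)) k (fun i hi => by
    rw [RingHom.comp_id]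
    exact h i hi) i hi
  have e : ∀ j, (X.d j).map (RingHom.id (MonoidAlgebra ℤ G)) = X.d j := fun j => by
    ext a b
    rfl
  cases i with
  | zero =>
    intro v hv
    refine h1 v ?_
    rw [e]
    exact hv
  | succ i =>
    intro v hv
    obtain ⟨w, hw⟩ := h1 v (by rw [e]; exact hv)
    rw [e] at hw
    exact ⟨w, hw⟩

theorem not_van2 {X : FinRes G} {i : ℕ} (h : L2NonAcyclic X i) : ¬ Van2 X i := by
  intro hv
  cases i with
  | zero =>
    obtain ⟨f, hf, hne⟩ := h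
    exact hne (hv f hf)
  | succ i =>
    obtain ⟨f, hf, hne⟩ := h
    obtain ⟨w, hw⟩ := hv f hf
    exact hne w hw

theorem le_len {X : FinRes G} {i : ℕ} (h : NonAcyclic X i) : i ≤ X.len := by
  by_contra hc
  have h0 := X.n_eq_zero i (by omega)
  have : Subsingleton (X.homology (toRed G) i) := by
    rw [← exAt_iff]
    have hs : ∀ x y : Fin (X.n i) → RedC G, x = y := by
      intro x y
      funext j
      exact (Fin.cast h0 j).elim0
    cases i with
    | zero =>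
      intro x
      exact ⟨0, hs _ _⟩
    | succ i =>
      intro x _
      exact ⟨0, hs _ _⟩
  exact not_nontrivial_iff_subsingleton.2 this h

theorem dual_main (X : FinRes G) (p : ℕ) (h : ∃ i, NonAcyclic X i)
    (hX : Low X p) : ∃ i ≤ p, NonAcyclic X i := by
  obtain ⟨i, hi⟩ := h
  by_cases hp : X.len ≤ p
  · exact ⟨i, (le_len hi).trans hp, hi⟩
  obtain ⟨h1, h2⟩ := hX.resolve_left hp
  obtain ⟨m, rfl⟩ : ∃ m, p = m + 1 := ⟨p - 1, by omega⟩
  by_contra hcon
  have h3 := ex_of_not hcon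
  have h4 := all_of X m (fun i hi => h3 i (by omega)) (van2_of_ex h3 (m + 1) le_rfl)
    (Or.inr ⟨by omega, h2.1, h2.2⟩) i
  exact not_ex hi h4

theorem Base.main (X : FinRes G) (k : ℕ) (h : Base X k) : ∃ i ≤ k, NonAcyclic X i := by
  have up : ∀ {a : ℕ}, a ≤ k → (∃ i ≤ a, NonAcyclic X i) → ∃ i ≤ k, NonAcyclic X i := by
    rintro a ha ⟨i, hi, h⟩
    exact ⟨i, hi.trans ha, h⟩
  rcases h with ⟨i, hi, h⟩ | ⟨h1, h2⟩ | ⟨h1, h2⟩ | ⟨h1, C, hC, hG, h2⟩ | ⟨h1, n, ⟨h2, h3⟩, h4⟩ | h |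
    h | ⟨i, hi, h⟩
  · by_contra hcon
    exact not_van2 h (van2_of_ex (ex_of_not hcon) i hi)
  · exact up h1 (exists_of_euler X h2)
  · exact up h1 (Pool.Agent.H919R4.ZS.main X h2)
  · exact up h1 (Pool.Agent.H919R4.AS.main X hC hG h2)
  · refine up h1 ?_
    rcases h4 with hn | ⟨P, h, hP, hn⟩
    · rcases Nat.lt_or_ge n 3 with h5 | h5
      · exact Pool.Agent.N453.ZS.main X n h2 h3 ⊥ 0 Pool.Agent.N453.ZS.PolyZ.bot (by omega)
      · rcases subsingleton_or_nontrivial G with hG | hG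
        · exact Pool.Agent.N453.ZS.finite_case X (D := ⊥) Pool.Agent.N453.ZS.amenable_bot
            inferInstance
        · obtain ⟨g, hg⟩ := exists_ne (1 : G)
          refine Pool.Agent.N453.ZS.main X n h2 h3 _ 1
            (Pool.Agent.N453.ZS.PolyZ.step g Pool.Agent.N453.ZS.PolyZ.bot ?_ ?_) (by omega)
          · exact (Subgroup.mem_normalizer_iff).2 fun h => by
              rw [Subgroup.mem_bot, Subgroup.mem_bot]
              constructor
              · rintro rfl; simp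
              · intro h3
                rw [mul_inv_eq_one] at h3
                exact mul_eq_left.1 h3
          · intro m hm
            exact Pool.Agent.N453.ZS.zpow_ne_one X hg m (Subgroup.mem_bot.1 hm)
    · exact Pool.Agent.N453.ZS.main X n h2 h3 P h hP hn
  · exact Pool.Agent.X270.NT.W.finalSep X k (Or.inl h)
  · exact Pool.Agent.X270.NT.W.finalSep X k (Or.inr h)
  · refine up hi ?_
    refine Pool.Agent.Q134.ZS.slow_cocycle_coset X i fun F => ?_
    obtain ⟨C, hC, a, b, S, h1, h2, h3, h4, h5⟩ := h F 2 (by norm_num)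
    exact ⟨C, hC, a, b, S, h2, h1, h3, h4, h5⟩

/-- **The theorem.** -/
theorem Seen.main {G : Type} [hG : Group G] {k : ℕ} (h : @Seen G hG k) :
    Nonempty (FinRes G) ∧ ∀ X : FinRes G, ∃ i ≤ k, NonAcyclic X i := by
  induction h with
  | base G X k hX => exact ⟨⟨X⟩, fun X' => indep X X' (Base.main X k hX)⟩
  | mono G k l _ hkl ih =>
    refine ⟨ih.1, fun X => ?_⟩
    obtain ⟨i, hi, h⟩ := ih.2 X
    exact ⟨i, hi.trans hkl, h⟩
  | dual G X k p _ hX ih =>
    refine ⟨ih.1, fun X' => indep X X' ?_⟩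
    obtain ⟨i, _, hi⟩ := ih.2 X
    exact dual_main X p ⟨i, hi⟩ hX
  | circle G z k hz _ ih =>
    obtain ⟨⟨Y⟩, hY⟩ := ih
    obtain ⟨h1, h2⟩ := tower (Tower.step G z hz _ (Tower.refl _)) Y
    refine ⟨h1, fun X => ?_⟩
    by_contra hcon
    obtain ⟨i, hi, h3⟩ := hY Y
    exact not_nontrivial_iff_subsingleton.2 (h2 X k (fun j hj => (exAt_iff X _ j).1
      (ex_of_not hcon j hj)) i hi) h3
  | distal G N X k hN _ hH ih =>
    obtain ⟨⟨Y⟩, hY⟩ := ih
    refine ⟨⟨X⟩, fun X' => indep X X' ?_⟩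
    obtain ⟨i, hi, h3⟩ := hY Y
    obtain ⟨j, hj, h4⟩ := Pool.Agent.W5h52.ZP.mainT N hN (G ⧸ N) (Tower.refl _) Y i (Or.inl h3) X
      fun q h1 h2 => by
        obtain ⟨⟨_, hs⟩, r, F, h5, h6, h7⟩ := hH q h1 (by omega)
        exact Pool.Agent.W5h52.ZP.dis_of_form hs r F h5 h6 h7
    exact ⟨j, hj.trans hi, h4⟩
  | topDual G N X Y k m hN hH hF _ hYl ih =>
    obtain ⟨_, hY⟩ := ih
    refine ⟨⟨X⟩, fun X' => indep X X' ?_⟩
    obtain ⟨i, _, h3⟩ := hY Y
    exact Pool.Agent.W5h52.ZP.mainD N hN X Y m (fun q h1 h2 => by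
      obtain ⟨⟨_, hs⟩, r, F, h5, h6, h7⟩ := hH q h1 h2
      exact Pool.Agent.W5h52.ZP.dis_of_form hs r F h5 h6 h7) hF (Or.inr ⟨hYl, Or.inr ⟨i, h3⟩⟩)
  | topL2 G N X Y m hN hH hF hY =>
    refine ⟨⟨X⟩, fun X' => indep X X' ?_⟩
    obtain ⟨i, hi, h3⟩ := hY
    exact Pool.Agent.W5h52.ZP.mainD N hN X Y m (fun q h1 h2 => by
      obtain ⟨⟨_, hs⟩, r, F, h5, h6, h7⟩ := hH q h1 h2
      exact Pool.Agent.W5h52.ZP.dis_of_form hs r F h5 h6 h7) hF (Or.inl ⟨i, hi, not_van2 h3⟩)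
  | slow G N X Y P k hP _ ih =>
    refine ⟨⟨X⟩, fun X' => indep X X' ?_⟩
    exact Pool.Agent.Q134.ZS.slow_main P k hP (ih.2 Y)

end Pool.Agent.H79.ZC
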